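import Mathlib

set_option autoImplicit false
open Filter Topology

namespace Pool.Agent.Results.MP_27090e_nt.SharpIffEven

/-! ### Definitions used in the statement -/

/-- An index entry: a pair `(a, e)`, where `a` is the absolute value and `e` (which is `1` or `-1`)
is the sign. -/
abbrev Entry : Type := ℕ × ℤ

/-- The unbarred entry `n`. -/
def plain (n : ℕ) : Entry := (n, 1)

/-- The barred entry `n`. -/
def bar (n : ℕ) : Entry := (n, -1)

/-- The operation `⊕` on entries: absolute values add and signs multiply. -/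
def oplus (s t : Entry) : Entry := (s.1 + t.1, s.2 * t.2)

/-- The factor `ε(s) ^ n / n ^ |s|`. -/
noncomputable def term (s : Entry) (n : ℕ) : ℝ := (s.2 : ℝ) ^ n / (n : ℝ) ^ s.1

/-- The nested sum over `m < n₁ < n₂ < ⋯ < n_k ≤ N` of `∏ j, ε(s_j) ^ n_j / n_j ^ |s_j|`, for the
list `[s₁, …, s_k]`. -/
noncomputable def nested : List Entry → ℕ → ℕ → ℝ
  | [], _, _ => 1
  | s :: t, m, N => ∑ n ∈ Finset.Ioc m N, term s n * nested t n N

/-- The Euler sum `ζ(s₁, …, s_k)`: the limit, as `N → ∞`, of the sum over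
`0 < n₁ < ⋯ < n_k ≤ N`. -/
noncomputable def eulerSum (s : List Entry) : ℝ :=
  limUnder atTop (fun N : ℕ => nested s 0 N)

/-- The list of the strings `s ∘ r₁ ∘ ⋯ ∘ r_j` in which every `∘` is a comma or `⊕`. -/
def stringsAux : Entry → List Entry → List (List Entry)
  | s, [] => [[s]]
  | s, t :: r => (stringsAux t r).map (fun u => s :: u) ++ stringsAux (oplus s t) r

/-- The list of the `2 ^ (k - 1)` strings `s₁ ∘ s₂ ∘ ⋯ ∘ s_k` in which every `∘` is independently
a comma or `⊕`. -/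
def strings : List Entry → List (List Entry)
  | [] => [[]]
  | s :: r => stringsAux s r

/-- The Euler sharp sum `ζ♯(s₁, …, s_k) = ∑ 2 ^ dep(t) ζ(t)` over the strings `t`. -/
noncomputable def eulerSharp (s : List Entry) : ℝ :=
  ((strings s).map (fun t => (2 : ℝ) ^ t.length * eulerSum t)).sum

/-! ### Harmonic numbers -/

/-- Harmonic numbers, as reals. -/
noncomputable def H (n : ℕ) : ℝ := ∑ k ∈ Finset.Ioc 0 n, 1 / (k : ℝ)

lemma H_zero : H 0 = 0 := by simp [H]

lemma H_succ (n : ℕ) : H (n + 1) = H n + 1 / ((n : ℝ) + 1) := by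
  unfold H
  rw [Finset.sum_Ioc_succ_top (Nat.zero_le n)]
  push_cast
  rfl

lemma H_nonneg (n : ℕ) : 0 ≤ H n := Finset.sum_nonneg (fun k _ => by positivity)

lemma H_mono {m n : ℕ} (h : m ≤ n) : H m ≤ H n := by
  unfold H
  apply Finset.sum_le_sum_of_subset_of_nonneg (Finset.Ioc_subset_Ioc_right h)
  intro k _ _
  positivity

lemma H_eq_harmonic (n : ℕ) : H n = (harmonic n : ℝ) := by
  induction n with
  | zero => simp [H]
  | succ n ih =>
    rw [H_succ, ih, harmonic_succ]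
    push_cast
    rw [one_div]

lemma H_le_log (n : ℕ) : H n ≤ 1 + Real.log n := by
  rw [H_eq_harmonic]
  exact harmonic_le_one_add_log n

lemma sum_Ioc_le_H (m N : ℕ) : ∑ n ∈ Finset.Ioc m N, 1 / (n : ℝ) ≤ H N := by
  unfold H
  apply Finset.sum_le_sum_of_subset_of_nonneg (Finset.Ioc_subset_Ioc_left (Nat.zero_le m))
  intro k _ _
  positivity

/-- Powers of `1 + H b` grow slower than `√b`. -/
lemma pow_H_le (k : ℕ) : ∃ C : ℝ, 0 ≤ C ∧ ∀ b : ℕ, 1 ≤ b → (1 + H b) ^ k ≤ C * (b : ℝ) ^ (1 / 2 : ℝ) := by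
  set ε : ℝ := 1 / (2 * ((k : ℝ) + 1)) with hε
  have hk0 : (0 : ℝ) ≤ k := Nat.cast_nonneg k
  have hεpos : 0 < ε := by positivity
  refine ⟨(2 + 1 / ε) ^ k, by positivity, fun b hb => ?_⟩
  have hb1 : (1 : ℝ) ≤ b := by exact_mod_cast hb
  have hb0 : (0 : ℝ) ≤ b := by linarith
  have h1 : Real.log b ≤ (b : ℝ) ^ ε / ε := Real.log_le_rpow_div hb0 hεpos
  have h2 : (1 : ℝ) ≤ (b : ℝ) ^ ε := Real.one_le_rpow hb1 hεpos.le
  have h3 : 1 + H b ≤ (2 + 1 / ε) * (b : ℝ) ^ ε := by
    have h4 := H_le_log b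
    have h5 : (2 + 1 / ε) * (b : ℝ) ^ ε = 2 * (b : ℝ) ^ ε + (b : ℝ) ^ ε / ε := by ring
    rw [h5]
    linarith
  have h0 : 0 ≤ 1 + H b := by
    have := H_nonneg b
    linarith
  calc (1 + H b) ^ k ≤ ((2 + 1 / ε) * (b : ℝ) ^ ε) ^ k := pow_le_pow_left₀ h0 h3 k
    _ = (2 + 1 / ε) ^ k * ((b : ℝ) ^ ε) ^ k := mul_pow _ _ _
    _ = (2 + 1 / ε) ^ k * (b : ℝ) ^ (ε * k) := by
        rw [← Real.rpow_natCast ((b : ℝ) ^ ε) k, ← Real.rpow_mul hb0]
    _ ≤ (2 + 1 / ε) ^ k * (b : ℝ) ^ (1 / 2 : ℝ) := by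
        apply mul_le_mul_of_nonneg_left _ (by positivity)
        apply Real.rpow_le_rpow_of_exponent_le hb1
        rw [hε, div_mul_eq_mul_div, one_mul, div_le_div_iff₀ (by positivity) (by positivity)]
        linarith

lemma summable_pow_H (k : ℕ) : Summable (fun b : ℕ => (1 + H b) ^ k / (b : ℝ) ^ 2) := by
  obtain ⟨C, hC, h⟩ := pow_H_le k
  have hs : Summable (fun b : ℕ => C * (1 / (b : ℝ) ^ (3 / 2 : ℝ))) :=
    (Real.summable_one_div_nat_rpow.mpr (by norm_num)).mul_left C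
  refine Summable.of_nonneg_of_le (fun b => ?_) (fun b => ?_) hs
  · have := H_nonneg b
    positivity
  · rcases Nat.eq_zero_or_pos b with hb | hb
    · subst hb
      simp
    · have hb0 : (0 : ℝ) < b := by exact_mod_cast hb
      have h1 := h b hb
      rw [div_le_iff₀ (by positivity)]
      refine h1.trans (le_of_eq ?_)
      rw [mul_assoc]
      congr 1
      have h2 : 1 / (b : ℝ) ^ (3 / 2 : ℝ) = (b : ℝ) ^ (-(3 / 2) : ℝ) := by
        rw [Real.rpow_neg hb0.le, one_div]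
      rw [h2, ← Real.rpow_natCast (b : ℝ) 2, ← Real.rpow_add hb0]
      norm_num

/-! ### Nested sums of functions -/

/-- Nested sums for lists of functions. -/
noncomputable def nestF : List (ℕ → ℝ) → ℕ → ℕ → ℝ
  | [], _, _ => 1
  | f :: l, m, N => ∑ n ∈ Finset.Ioc m N, f n * nestF l n N

lemma nested_eq (t : List Entry) (m N : ℕ) : nested t m N = nestF (t.map term) m N := by
  induction t generalizing m with
  | nil => rfl
  | cons s t ih =>
    simp only [nested, List.map_cons, nestF]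
    apply Finset.sum_congr rfl
    intro n _
    rw [ih]

lemma sum_Ioc_swap (m N : ℕ) (F : ℕ → ℕ → ℝ) :
    ∑ n ∈ Finset.Ioc m N, ∑ b ∈ Finset.Ioc n N, F n b
      = ∑ b ∈ Finset.Ioc m N, ∑ n ∈ Finset.Ioc m (b - 1), F n b := by
  apply Finset.sum_comm'
  intro x y
  simp only [Finset.mem_Ioc]
  omega

lemma nestF_snoc (l : List (ℕ → ℝ)) (g : ℕ → ℝ) (m N : ℕ) :
    nestF (l ++ [g]) m N = ∑ b ∈ Finset.Ioc m N, g b * nestF l m (b - 1) := by
  induction l generalizing m with
  | nil => simp [nestF]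
  | cons f l ih =>
    simp only [List.cons_append, nestF]
    simp_rw [ih, Finset.mul_sum]
    rw [sum_Ioc_swap]
    apply Finset.sum_congr rfl
    intro b _
    apply Finset.sum_congr rfl
    intro n _
    ring

/-- `f` is bounded by `1/n`. -/
def Sm (f : ℕ → ℝ) : Prop := ∀ n : ℕ, 1 ≤ n → |f n| ≤ 1 / (n : ℝ)

lemma Sm.mul {f g : ℕ → ℝ} (hf : Sm f) (hg : Sm g) : Sm (fun n => f n * g n) := by
  intro n hn
  have hn1 : (1 : ℝ) ≤ n := by exact_mod_cast hn
  rw [abs_mul]
  have h1 := hf n hn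
  have h2 := hg n hn
  have h3 : 1 / (n : ℝ) ≤ 1 := by
    rw [div_le_one (by linarith)]
    exact hn1
  calc |f n| * |g n| ≤ (1 / (n : ℝ)) * 1 :=
        mul_le_mul h1 (h2.trans h3) (abs_nonneg _) (by positivity)
    _ = 1 / (n : ℝ) := mul_one _

lemma abs_sum_le_H {f : ℕ → ℝ} (hf : Sm f) (m N : ℕ) (G : ℕ → ℝ) (B : ℝ)
    (hG : ∀ n ∈ Finset.Ioc m N, |G n| ≤ B) (hB : 0 ≤ B) :
    |∑ n ∈ Finset.Ioc m N, f n * G n| ≤ H N * B := by
  calc |∑ n ∈ Finset.Ioc m N, f n * G n| ≤ ∑ n ∈ Finset.Ioc m N, |f n * G n| :=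
        Finset.abs_sum_le_sum_abs _ _
    _ ≤ ∑ n ∈ Finset.Ioc m N, 1 / (n : ℝ) * B := by
        apply Finset.sum_le_sum
        intro n hn
        rw [abs_mul]
        have hn1 : 1 ≤ n := by
          rw [Finset.mem_Ioc] at hn
          omega
        exact mul_le_mul (hf n hn1) (hG n hn) (abs_nonneg _) (by positivity)
    _ = (∑ n ∈ Finset.Ioc m N, 1 / (n : ℝ)) * B := by rw [Finset.sum_mul]
    _ ≤ H N * B := mul_le_mul_of_nonneg_right (sum_Ioc_le_H m N) hB

lemma nestF_bound (l : List (ℕ → ℝ)) (hl : ∀ f ∈ l, Sm f) (m N : ℕ) :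
    |nestF l m N| ≤ (1 + H N) ^ l.length := by
  induction l generalizing m with
  | nil => simp [nestF]
  | cons f l ih =>
    have hH := H_nonneg N
    simp only [nestF, List.length_cons]
    have h1 := abs_sum_le_H (hl f (by simp)) m N (fun n => nestF l n N) ((1 + H N) ^ l.length)
      (fun n _ => ih (fun g hg => hl g (by simp [hg])) n) (by positivity)
    refine h1.trans ?_
    rw [pow_succ]
    nlinarith [show 0 ≤ (1 + H N) ^ l.length by positivity]

lemma sum_Ioc_eq_range (c : ℕ → ℝ) (N : ℕ) :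
    ∑ b ∈ Finset.Ioc 0 N, c b = ∑ b ∈ Finset.range N, c (b + 1) := by
  induction N with
  | zero => simp
  | succ N ih => rw [Finset.sum_Ioc_succ_top (Nat.zero_le N), Finset.sum_range_succ, ih]

/-- Absolute convergence of sums of the shape `∑ g(b) c(b)`. -/
lemma summable_aux (g c : ℕ → ℝ) (hg : ∀ b : ℕ, 1 ≤ b → |g b| ≤ 1 / (b : ℝ) ^ 2)
    (K : ℝ) (k : ℕ) (hc : ∀ b : ℕ, 1 ≤ b → |c b| ≤ K * (1 + H b) ^ k) :
    Summable (fun b : ℕ => g (b + 1) * c (b + 1)) := by
  have hs : Summable (fun b : ℕ => K * ((1 + H (b + 1)) ^ k / ((b + 1 : ℕ) : ℝ) ^ 2)) :=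
    ((summable_nat_add_iff 1).mpr (summable_pow_H k)).mul_left K
  refine Summable.of_norm_bounded hs (fun b => ?_)
  rw [Real.norm_eq_abs, abs_mul]
  have h1 := hg (b + 1) (by omega)
  have h2 := hc (b + 1) (by omega)
  calc |g (b + 1)| * |c (b + 1)| ≤ (1 / ((b + 1 : ℕ) : ℝ) ^ 2) * (K * (1 + H (b + 1)) ^ k) :=
        mul_le_mul h1 h2 (abs_nonneg _) (by positivity)
    _ = K * ((1 + H (b + 1)) ^ k / ((b + 1 : ℕ) : ℝ) ^ 2) := by ring

lemma nestF_tendsto (l : List (ℕ → ℝ)) (hl : ∀ f ∈ l, Sm f) (g : ℕ → ℝ)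
    (hg : ∀ b : ℕ, 1 ≤ b → |g b| ≤ 1 / (b : ℝ) ^ 2) :
    ∃ x : ℝ, Tendsto (fun N : ℕ => nestF (l ++ [g]) 0 N) atTop (𝓝 x) := by
  have hs := summable_aux g (fun b => nestF l 0 (b - 1)) hg 1 l.length (fun b _ => by
    refine (nestF_bound l hl 0 (b - 1)).trans ?_
    rw [one_mul]
    apply pow_le_pow_left₀
    · have := H_nonneg (b - 1)
      linarith
    · have := H_mono (Nat.sub_le b 1)
      linarith)
  refine ⟨_, (hs.hasSum.tendsto_sum_nat).congr (fun N => ?_)⟩
  rw [nestF_snoc, sum_Ioc_eq_range (fun b => g b * nestF l 0 (b - 1))]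

/-! ### Sharp sums of functions -/

/-- Truncated sharp sums for lists of functions. -/
noncomputable def sharpF : (ℕ → ℝ) → List (ℕ → ℝ) → ℕ → ℕ → ℝ
  | f, [], m, N => 2 * ∑ n ∈ Finset.Ioc m N, f n
  | f, g :: r, m, N =>
      2 * (∑ n ∈ Finset.Ioc m N, f n * sharpF g r n N) + sharpF (fun n => f n * g n) r m N

lemma term_oplus (s t : Entry) : term (oplus s t) = fun n => term s n * term t n := by
  funext n
  simp only [term, oplus]
  push_cast
  rw [mul_pow, pow_add, mul_div_mul_comm]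

lemma list_sum_finset_sum {α : Type} (L : List α) (s : Finset ℕ) (F : α → ℕ → ℝ) :
    (L.map (fun u => ∑ n ∈ s, F u n)).sum = ∑ n ∈ s, (L.map (fun u => F u n)).sum := by
  induction L with
  | nil => simp
  | cons a L ih => simp only [List.map_cons, List.sum_cons, ih, Finset.sum_add_distrib]

lemma strings_sum (s : Entry) (r : List Entry) (m N : ℕ) :
    ((stringsAux s r).map (fun t => (2 : ℝ) ^ t.length * nested t m N)).sum
      = sharpF (term s) (r.map term) m N := by
  induction r generalizing s m with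
  | nil => simp [stringsAux, sharpF, nested]
  | cons t r ih =>
    simp only [stringsAux, List.map_append, List.sum_append, List.map_cons, sharpF, List.map_map]
    rw [ih, term_oplus]
    congr 1
    have h1 : ((fun t => (2 : ℝ) ^ t.length * nested t m N) ∘ fun u => s :: u)
        = fun u => ∑ n ∈ Finset.Ioc m N, (2 * term s n) * ((2 : ℝ) ^ u.length * nested u n N) := by
      funext u
      simp only [Function.comp, List.length_cons, nested, Finset.mul_sum]
      apply Finset.sum_congr rfl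
      intro n _
      ring
    rw [h1, list_sum_finset_sum, Finset.mul_sum]
    apply Finset.sum_congr rfl
    intro n _
    rw [List.sum_map_mul_left, ih]
    ring

/-- The coefficient of the last variable in a sharp sum. -/
noncomputable def Phi : (ℕ → ℝ) → List (ℕ → ℝ) → ℕ → ℕ → ℝ
  | f, [], m, b => 4 * (∑ n ∈ Finset.Ioc m (b - 1), f n) + 2 * f b
  | f, h :: l, m, b =>
      2 * (∑ n ∈ Finset.Ioc m (b - 1), f n * Phi h l n b) + Phi (fun n => f n * h n) l m b

lemma sharpF_snoc (f : ℕ → ℝ) (l : List (ℕ → ℝ)) (g : ℕ → ℝ) (m N : ℕ) :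
    sharpF f (l ++ [g]) m N = ∑ b ∈ Finset.Ioc m N, g b * Phi f l m b := by
  induction l generalizing f m with
  | nil =>
    simp only [List.nil_append, sharpF, Phi, mul_add, Finset.sum_add_distrib, Finset.mul_sum]
    rw [sum_Ioc_swap]
    congr 1
    · apply Finset.sum_congr rfl
      intro b _
      apply Finset.sum_congr rfl
      intro n _
      ring
    · apply Finset.sum_congr rfl
      intro b _
      ring
  | cons h l ih =>
    simp only [List.cons_append, sharpF, Phi, mul_add, Finset.sum_add_distrib]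
    rw [ih]
    congr 1
    simp_rw [ih, Finset.mul_sum]
    rw [sum_Ioc_swap]
    apply Finset.sum_congr rfl
    intro b _
    apply Finset.sum_congr rfl
    intro n _
    ring

lemma Phi_bound (f : ℕ → ℝ) (l : List (ℕ → ℝ)) (hf : Sm f) (hl : ∀ h ∈ l, Sm h) (m b : ℕ)
    (hb : 1 ≤ b) :
    |Phi f l m b| ≤ 4 ^ (l.length + 1) * (1 + H b) ^ (l.length + 1) := by
  have hH := H_nonneg b
  have hHb : H (b - 1) ≤ H b := H_mono (Nat.sub_le b 1)
  induction l generalizing f m with
  | nil =>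
    simp only [Phi, List.length_nil, zero_add, pow_one]
    have h1 : |∑ n ∈ Finset.Ioc m (b - 1), f n| ≤ H (b - 1) := by
      have := abs_sum_le_H hf m (b - 1) (fun _ => 1) 1 (fun _ _ => by simp) (by norm_num)
      simpa using this
    have h2 : |f b| ≤ 1 := by
      have hb1 : (1 : ℝ) ≤ b := by exact_mod_cast hb
      refine (hf b hb).trans ?_
      rw [div_le_one (by linarith)]
      exact hb1
    calc |4 * (∑ n ∈ Finset.Ioc m (b - 1), f n) + 2 * f b|
        ≤ |4 * (∑ n ∈ Finset.Ioc m (b - 1), f n)| + |2 * f b| := abs_add_le _ _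
      _ = 4 * |∑ n ∈ Finset.Ioc m (b - 1), f n| + 2 * |f b| := by
          rw [abs_mul, abs_mul]
          norm_num
      _ ≤ 4 * (1 + H b) := by linarith
  | cons h l ih =>
    simp only [Phi, List.length_cons]
    have hl' : ∀ g ∈ l, Sm g := fun g hg => hl g (by simp [hg])
    have hh : Sm h := hl h (by simp)
    set P : ℝ := 4 ^ (l.length + 1) * (1 + H b) ^ (l.length + 1) with hP
    have hP0 : 0 ≤ P := by positivity
    have h1 : |∑ n ∈ Finset.Ioc m (b - 1), f n * Phi h l n b| ≤ H (b - 1) * P :=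
      abs_sum_le_H hf m (b - 1) (fun n => Phi h l n b) P (fun n _ => ih h hh hl' n) hP0
    have h2 : |Phi (fun n => f n * h n) l m b| ≤ P := ih _ (hf.mul hh) hl' m
    calc |2 * (∑ n ∈ Finset.Ioc m (b - 1), f n * Phi h l n b) + Phi (fun n => f n * h n) l m b|
        ≤ |2 * (∑ n ∈ Finset.Ioc m (b - 1), f n * Phi h l n b)|
            + |Phi (fun n => f n * h n) l m b| := abs_add_le _ _
      _ = 2 * |∑ n ∈ Finset.Ioc m (b - 1), f n * Phi h l n b|
            + |Phi (fun n => f n * h n) l m b| := by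
          rw [abs_mul]
          norm_num
      _ ≤ 2 * (H b * P) + P := by
          have : H (b - 1) * P ≤ H b * P := mul_le_mul_of_nonneg_right hHb hP0
          linarith
      _ ≤ 4 * (1 + H b) * P := by nlinarith
      _ = 4 ^ (l.length + 1 + 1) * (1 + H b) ^ (l.length + 1 + 1) := by
          rw [hP]
          ring

/-- The tail transform. -/
noncomputable def V : List (ℕ → ℝ) → ℕ → ℕ → ℝ
  | [], _, _ => 2
  | f :: l, N, n => f n * V l N n + 2 * ∑ k ∈ Finset.Ioc n N, f k * V l N k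

lemma sharpF_eq_V (f : ℕ → ℝ) (l : List (ℕ → ℝ)) (m N : ℕ) :
    sharpF f l m N = ∑ n ∈ Finset.Ioc m N, f n * V l N n := by
  induction l generalizing f m with
  | nil =>
    simp only [sharpF, V, Finset.mul_sum]
    apply Finset.sum_congr rfl
    intro n _
    ring
  | cons g r ih =>
    simp only [sharpF, V]
    rw [ih]
    simp_rw [ih]
    rw [Finset.mul_sum, ← Finset.sum_add_distrib]
    apply Finset.sum_congr rfl
    intro n _
    ring

/-! ### The weights `C(M,b)/C(M+b,b)` -/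

/-- The weight `C(M,b)/C(M+b,b)`. -/
noncomputable def w (M b : ℕ) : ℝ := (M.choose b : ℝ) / ((M + b).choose b : ℝ)

lemma w_zero_right (M : ℕ) : w M 0 = 1 := by simp [w]

lemma w_eq_zero {M b : ℕ} (h : M < b) : w M b = 0 := by
  simp [w, Nat.choose_eq_zero_of_lt h]

lemma w_nonneg (M b : ℕ) : 0 ≤ w M b := by unfold w; positivity

lemma w_le_one (M b : ℕ) : w M b ≤ 1 := by
  unfold w
  apply div_le_one_of_le₀ _ (by positivity)
  exact_mod_cast Nat.choose_le_choose b (Nat.le_add_right M b)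

lemma w_succ_right (M b : ℕ) : w M (b + 1) * ((M : ℝ) + b + 1) = w M b * ((M : ℝ) - b) := by
  rcases le_or_gt b M with h | h
  · have h1 : (M.choose (b + 1) : ℝ) * ((b : ℝ) + 1) = (M.choose b : ℝ) * ((M : ℝ) - b) := by
      have := Nat.choose_succ_right_eq M b
      have h2 : ((M.choose (b + 1) * (b + 1) : ℕ) : ℝ) = ((M.choose b * (M - b) : ℕ) : ℝ) := by
        rw [this]
      push_cast [Nat.cast_sub h] at h2
      exact h2
    have h3 : ((M + b + 1 : ℕ) : ℝ) * ((M + b).choose b : ℝ)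
        = ((M + (b + 1)).choose (b + 1) : ℝ) * ((b : ℝ) + 1) := by
      have := Nat.add_one_mul_choose_eq (M + b) b
      have h4 : (((M + b + 1) * (M + b).choose b : ℕ) : ℝ)
          = (((M + b + 1).choose (b + 1) * (b + 1) : ℕ) : ℝ) := by rw [this]
      push_cast at h4 ⊢
      exact h4
    have hc1 : ((M + b).choose b : ℝ) ≠ 0 := by
      have : 0 < (M + b).choose b := Nat.choose_pos (by omega)
      exact_mod_cast this.ne'
    have hc2 : ((M + (b + 1)).choose (b + 1) : ℝ) ≠ 0 := by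
      have : 0 < (M + (b + 1)).choose (b + 1) := Nat.choose_pos (by omega)
      exact_mod_cast this.ne'
    have hb1 : ((b : ℝ) + 1) ≠ 0 := by positivity
    unfold w
    rw [div_mul_eq_mul_div, div_mul_eq_mul_div, div_eq_div_iff hc2 hc1]
    push_cast at h3
    apply mul_right_cancel₀ hb1
    calc (M.choose (b + 1) : ℝ) * ((M : ℝ) + b + 1) * ((M + b).choose b : ℝ) * ((b : ℝ) + 1)
        = ((M.choose (b + 1) : ℝ) * ((b : ℝ) + 1)) * (((M : ℝ) + b + 1) * ((M + b).choose b : ℝ)) := by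
          ring
      _ = ((M.choose b : ℝ) * ((M : ℝ) - b)) *
            (((M + (b + 1)).choose (b + 1) : ℝ) * ((b : ℝ) + 1)) := by rw [h1, h3]
      _ = _ := by ring
  · rw [w_eq_zero h, w_eq_zero (by omega : M < b + 1)]
    ring

lemma w_succ_left (M b : ℕ) :
    w M b * ((M : ℝ) + 1) ^ 2 = w (M + 1) b * (((M : ℝ) + 1) ^ 2 - (b : ℝ) ^ 2) := by
  induction b with
  | zero =>
    rw [w_zero_right, w_zero_right]
    push_cast
    ring
  | succ b ih =>
    have h1 := w_succ_right M b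
    have h2 := w_succ_right (M + 1) b
    have hM : (0 : ℝ) ≤ M := Nat.cast_nonneg M
    have hb : (0 : ℝ) ≤ b := Nat.cast_nonneg b
    push_cast at h1 h2 ⊢
    have hp1 : ((M : ℝ) + b + 1) ≠ 0 := by positivity
    have hp2 : ((M : ℝ) + 1 + b + 1) ≠ 0 := by positivity
    apply mul_right_cancel₀ hp1
    apply mul_right_cancel₀ hp2
    calc w M (b + 1) * ((M : ℝ) + 1) ^ 2 * ((M : ℝ) + b + 1) * ((M : ℝ) + 1 + b + 1)
        = (w M (b + 1) * ((M : ℝ) + b + 1)) * ((M : ℝ) + 1) ^ 2 * ((M : ℝ) + 1 + b + 1) := by ring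
      _ = (w M b * ((M : ℝ) + 1) ^ 2) * ((M : ℝ) - b) * ((M : ℝ) + 1 + b + 1) := by rw [h1]; ring
      _ = (w (M + 1) b * (((M : ℝ) + 1) ^ 2 - (b : ℝ) ^ 2)) * ((M : ℝ) - b)
            * ((M : ℝ) + 1 + b + 1) := by rw [ih]
      _ = (w (M + 1) b * ((M : ℝ) + 1 - b)) * (((M : ℝ) + b + 1) * ((M : ℝ) - b)
            * ((M : ℝ) + 1 + b + 1)) := by ring
      _ = (w (M + 1) (b + 1) * ((M : ℝ) + 1 + b + 1)) * (((M : ℝ) + b + 1) * ((M : ℝ) - b)
            * ((M : ℝ) + 1 + b + 1)) := by rw [h2]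
      _ = w (M + 1) (b + 1) * (((M : ℝ) + 1) ^ 2 - ((b : ℝ) + 1) ^ 2) * ((M : ℝ) + b + 1)
            * ((M : ℝ) + 1 + b + 1) := by ring

lemma w_tendsto (b : ℕ) : Tendsto (fun N : ℕ => w N b) atTop (𝓝 1) := by
  induction b with
  | zero => simp only [w_zero_right]; exact tendsto_const_nhds
  | succ b ih =>
    have h1 : ∀ N : ℕ, w N (b + 1) = w N b * (1 - (2 * (b : ℝ) + 1) / ((N : ℝ) + b + 1)) := by
      intro N
      have hp : ((N : ℝ) + b + 1) ≠ 0 := by positivity
      have h2 := w_succ_right N b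
      apply mul_right_cancel₀ hp
      rw [h2]
      field_simp
      ring
    have h2 : Tendsto (fun N : ℕ => (2 * (b : ℝ) + 1) / ((N : ℝ) + b + 1)) atTop (𝓝 0) := by
      apply Tendsto.div_atTop tendsto_const_nhds
      apply tendsto_atTop_add_const_right
      apply tendsto_atTop_add_const_right
      exact tendsto_natCast_atTop_atTop
    have h3 := ih.mul ((tendsto_const_nhds (x := (1 : ℝ))).sub h2)
    rw [sub_zero, mul_one] at h3
    exact h3.congr (fun N => (h1 N).symm)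

/-- The signed weights. -/
noncomputable def e (M n : ℕ) : ℝ := (-1) ^ n * w M n

lemma e_sum (M n N : ℕ) (hM : 1 ≤ M) (hn : n ≤ N) :
    ∑ k ∈ Finset.Ioc n N, e M k
      = e M N * ((M : ℝ) - N) / (2 * M) - e M n * ((M : ℝ) - n) / (2 * M) := by
  have hM0 : (0 : ℝ) < M := by exact_mod_cast hM
  induction N, hn using Nat.le_induction with
  | base => simp
  | succ N hN ih =>
    rw [Finset.sum_Ioc_succ_top (by omega), ih]
    have h1 := w_succ_right M N
    unfold e
    push_cast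
    have h2 : (-1 : ℝ) ^ N * w M N * ((M : ℝ) - N)
        = (-1) ^ N * (w M (N + 1) * ((M : ℝ) + N + 1)) := by rw [h1]; ring
    rw [h2, pow_succ]
    field_simp
    ring

lemma eigen (M n N : ℕ) (hM : 1 ≤ M) (hMN : M ≤ N) :
    e M n + 2 * ∑ k ∈ Finset.Ioc n N, e M k = (n : ℝ) / M * e M n := by
  have hM0 : (0 : ℝ) < M := by exact_mod_cast hM
  rcases le_or_gt n N with h | h
  · rw [e_sum M n N hM h]
    have h0 : e M N * ((M : ℝ) - N) = 0 := by
      rcases hMN.lt_or_eq with h1 | h1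
      · unfold e
        rw [w_eq_zero h1]
        ring
      · rw [h1]
        ring
    rw [h0]
    field_simp
    ring
  · rw [Finset.Ioc_eq_empty (by omega)]
    have : e M n = 0 := by
      unfold e
      rw [w_eq_zero (by omega)]
      ring
    rw [this]
    simp

/-- The weighted last function. -/
noncomputable def gw (N b : ℕ) : ℝ := w N b * ((-1) ^ b / (b : ℝ) ^ 2)

lemma gw_eq (N b : ℕ) (hb : 1 ≤ b) :
    gw N b = ∑ M ∈ Finset.Ioc 0 N, (1 / (M : ℝ) ^ 2) * e M b := by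
  have hb0 : (0 : ℝ) < b := by exact_mod_cast hb
  induction N with
  | zero =>
    unfold gw
    rw [w_eq_zero (by omega)]
    simp
  | succ N ih =>
    rw [Finset.sum_Ioc_succ_top (Nat.zero_le N), ← ih]
    have h1 := w_succ_left N b
    unfold gw e
    push_cast
    have h2 : w N b = w (N + 1) b * (((N : ℝ) + 1) ^ 2 - (b : ℝ) ^ 2) / ((N : ℝ) + 1) ^ 2 := by
      rw [eq_div_iff (by positivity), h1]
    rw [h2]
    field_simp
    ring

/-- The function `1/n`. -/
noncomputable def inv (n : ℕ) : ℝ := 1 / (n : ℝ)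

lemma V_rep (r N n : ℕ) (hn : 1 ≤ n) :
    V (List.replicate r inv ++ [gw N]) N n
      = ∑ M ∈ Finset.Ioc 0 N, (2 / (M : ℝ) ^ (r + 2)) * ((n : ℝ) / M * e M n) := by
  induction r generalizing n with
  | zero =>
    simp only [List.replicate_zero, List.nil_append, V, zero_add]
    have h1 : ∀ k ∈ Finset.Ioc n N, gw N k * 2
        = ∑ M ∈ Finset.Ioc 0 N, (2 / (M : ℝ) ^ 2) * e M k := by
      intro k hk
      rw [Finset.mem_Ioc] at hk
      rw [gw_eq N k (by omega), Finset.sum_mul]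
      apply Finset.sum_congr rfl
      intro M _
      ring
    rw [Finset.sum_congr rfl h1, Finset.sum_comm, gw_eq N n hn, Finset.sum_mul, Finset.mul_sum,
      ← Finset.sum_add_distrib]
    apply Finset.sum_congr rfl
    intro M hM
    rw [Finset.mem_Ioc] at hM
    rw [← eigen M n N (by omega) hM.2, ← Finset.mul_sum]
    ring
  | succ r ih =>
    simp only [List.replicate_succ, List.cons_append, V]
    have h1 : ∀ k : ℕ, 1 ≤ k → inv k * V (List.replicate r inv ++ [gw N]) N k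
        = ∑ M ∈ Finset.Ioc 0 N, (2 / (M : ℝ) ^ (r + 1 + 2)) * e M k := by
      intro k hk
      have hk0 : (k : ℝ) ≠ 0 := by
        have : k ≠ 0 := by omega
        exact_mod_cast this
      rw [ih k hk, Finset.mul_sum]
      apply Finset.sum_congr rfl
      intro M hM
      rw [Finset.mem_Ioc] at hM
      have hM0 : (M : ℝ) ≠ 0 := by
        have : M ≠ 0 := by omega
        exact_mod_cast this
      unfold inv
      field_simp
      ring
    rw [Finset.sum_congr rfl (fun k hk => h1 k (by rw [Finset.mem_Ioc] at hk; omega)), h1 n hn,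
      Finset.sum_comm, Finset.mul_sum, ← Finset.sum_add_distrib]
    apply Finset.sum_congr rfl
    intro M hM
    rw [Finset.mem_Ioc] at hM
    rw [← eigen M n N (by omega) hM.2, ← Finset.mul_sum]
    ring

lemma sum_n_e (M N : ℕ) (hM : 1 ≤ M) (hMN : M ≤ N) :
    ∑ n ∈ Finset.Ioc 0 N, (n : ℝ) * e M n = - (M : ℝ) / (2 * (2 * M - 1)) := by
  have hM1 : (1 : ℝ) ≤ M := by exact_mod_cast hM
  have hne : (2 * (M : ℝ) - 1) ≠ 0 := by linarith
  have key : ∀ K : ℕ, (2 * (M : ℝ) - 1) * ∑ n ∈ Finset.Ioc 0 K, (n : ℝ) * e M n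
      = e M K * ((M : ℝ) - K) * (K + 1 / 2) - M / 2 := by
    intro K
    induction K with
    | zero =>
      simp only [Finset.Ioc_self, Finset.sum_empty, mul_zero, e, w_zero_right, pow_zero]
      push_cast
      ring
    | succ K ih =>
      rw [Finset.sum_Ioc_succ_top (Nat.zero_le K), mul_add, ih]
      have h1 := w_succ_right M K
      unfold e
      push_cast
      have h2 : (-1 : ℝ) ^ K * w M K * ((M : ℝ) - K)
          = (-1) ^ K * (w M (K + 1) * ((M : ℝ) + K + 1)) := by rw [h1]; ring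
      rw [h2, pow_succ]
      ring
  have h0 : e M N * ((M : ℝ) - N) = 0 := by
    rcases hMN.lt_or_eq with h1 | h1
    · unfold e
      rw [w_eq_zero h1]
      ring
    · rw [h1]
      ring
  have h1 := key N
  rw [h0] at h1
  rw [eq_div_iff (by
    intro h
    apply hne
    linarith)]
  linarith

lemma sum_inv_e (M N : ℕ) (hMN : M ≤ N) :
    ∑ n ∈ Finset.Ioc 0 N, (1 / (n : ℝ)) * e M n = H M - H (2 * M) := by
  induction M with
  | zero =>
    rw [mul_zero, sub_self]
    apply Finset.sum_eq_zero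
    intro n hn
    rw [Finset.mem_Ioc] at hn
    unfold e
    rw [w_eq_zero hn.1]
    ring
  | succ M ih =>
    have ih' := ih (by omega)
    have h1 := sum_n_e (M + 1) N (by omega) hMN
    have h2 : ∑ n ∈ Finset.Ioc 0 N, (1 / (n : ℝ)) * e (M + 1) n
        = ∑ n ∈ Finset.Ioc 0 N, (1 / (n : ℝ)) * e M n
          + (1 / ((M : ℝ) + 1) ^ 2) * ∑ n ∈ Finset.Ioc 0 N, (n : ℝ) * e (M + 1) n := by
      rw [Finset.mul_sum, ← Finset.sum_add_distrib]
      apply Finset.sum_congr rfl
      intro n hn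
      rw [Finset.mem_Ioc] at hn
      have hn0 : (n : ℝ) ≠ 0 := by
        have : n ≠ 0 := by omega
        exact_mod_cast this
      have h3 := w_succ_left M n
      have h4 : w M n = w (M + 1) n * (((M : ℝ) + 1) ^ 2 - (n : ℝ) ^ 2) / ((M : ℝ) + 1) ^ 2 := by
        rw [eq_div_iff (by positivity), h3]
      unfold e
      rw [h4]
      field_simp
      ring
    rw [h2, ih', h1]
    have h5 : 2 * (M + 1) = 2 * M + 1 + 1 := by ring
    rw [h5, H_succ, H_succ, H_succ]
    push_cast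
    have h6 : (2 * ((M : ℝ) + 1) - 1) = 2 * (M : ℝ) + 1 := by ring
    rw [h6]
    have h7 : (2 * (M : ℝ) + 1) ≠ 0 := by positivity
    have h8 : (2 * (M : ℝ) + 1 + 1) ≠ 0 := by positivity
    have h9 : ((M : ℝ) + 1) ≠ 0 := by positivity
    field_simp
    ring

/-- The function `1/n^2`. -/
noncomputable def inv2 (n : ℕ) : ℝ := 1 / (n : ℝ) ^ 2

/-- The finite weighted identity. -/
lemma finite_identity (r N : ℕ) :
    sharpF inv2 (List.replicate r inv ++ [gw N]) 0 N
      = ∑ M ∈ Finset.Ioc 0 N, (2 / (M : ℝ) ^ (r + 3)) * (H M - H (2 * M)) := by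
  rw [sharpF_eq_V]
  have h1 : ∀ n ∈ Finset.Ioc 0 N, inv2 n * V (List.replicate r inv ++ [gw N]) N n
      = ∑ M ∈ Finset.Ioc 0 N, (2 / (M : ℝ) ^ (r + 3)) * ((1 / (n : ℝ)) * e M n) := by
    intro n hn
    rw [Finset.mem_Ioc] at hn
    have hn0 : (n : ℝ) ≠ 0 := by
      have : n ≠ 0 := by omega
      exact_mod_cast this
    rw [V_rep r N n (by omega), Finset.mul_sum]
    apply Finset.sum_congr rfl
    intro M hM
    rw [Finset.mem_Ioc] at hM
    have hM0 : (M : ℝ) ≠ 0 := by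
      have : M ≠ 0 := by omega
      exact_mod_cast this
    unfold inv2
    field_simp
    ring
  rw [Finset.sum_congr rfl h1, Finset.sum_comm]
  apply Finset.sum_congr rfl
  intro M hM
  rw [Finset.mem_Ioc] at hM
  rw [← Finset.mul_sum, sum_inv_e M N hM.2]

/-! ### The left-hand side as a limit -/

/-- Entries with sign `1` or `-1` and absolute value at least `a`. -/
def Ok (a : ℕ) (s : Entry) : Prop := a ≤ s.1 ∧ (s.2 = 1 ∨ s.2 = -1)

lemma Ok.oplus {a b : ℕ} {s t : Entry} (hs : Ok a s) (ht : Ok b t) : Ok (a + b) (oplus s t) := by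
  refine ⟨Nat.add_le_add hs.1 ht.1, ?_⟩
  rcases hs.2 with h1 | h1 <;> rcases ht.2 with h2 | h2 <;>
    simp [SharpIffEven.oplus, h1, h2]

lemma Ok.mono {a b : ℕ} {s : Entry} (hs : Ok b s) (h : a ≤ b) : Ok a s := ⟨h.trans hs.1, hs.2⟩

lemma abs_term_le {a : ℕ} {s : Entry} (hs : Ok a s) (n : ℕ) (hn : 1 ≤ n) :
    |term s n| ≤ 1 / (n : ℝ) ^ a := by
  have hn1 : (1 : ℝ) ≤ n := by exact_mod_cast hn
  unfold term
  rw [abs_div, abs_pow]
  have h1 : |((s.2 : ℤ) : ℝ)| = 1 := by
    rcases hs.2 with h | h <;> simp [h]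
  rw [h1, one_pow, abs_of_nonneg (by positivity : (0 : ℝ) ≤ (n : ℝ) ^ s.1)]
  exact one_div_le_one_div_of_le (by positivity) (pow_le_pow_right₀ hn1 hs.1)

lemma Ok.sm {s : Entry} (hs : Ok 1 s) : Sm (term s) := by
  intro n hn
  have := abs_term_le hs n hn
  rwa [pow_one] at this

/-- Admissible strings. -/
def Adm (t : List Entry) : Prop :=
  ∃ (t' : List Entry) (g : Entry), t = t' ++ [g] ∧ Ok 2 g ∧ ∀ u ∈ t', Ok 1 u

lemma Adm.tendsto {t : List Entry} (ht : Adm t) :
    Tendsto (fun N : ℕ => nested t 0 N) atTop (𝓝 (eulerSum t)) := by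
  obtain ⟨t', g, rfl, hg, ht'⟩ := ht
  obtain ⟨x, hx⟩ := nestF_tendsto (t'.map term) (by
    intro f hf
    rw [List.mem_map] at hf
    obtain ⟨u, hu, rfl⟩ := hf
    exact (ht' u hu).sm) (term g) (fun b hb => abs_term_le hg b hb)
  have h1 : Tendsto (fun N : ℕ => nested (t' ++ [g]) 0 N) atTop (𝓝 x) := by
    refine hx.congr (fun N => ?_)
    rw [nested_eq, List.map_append]
    rfl
  exact tendsto_nhds_limUnder ⟨x, h1⟩

lemma adm_strings (s : Entry) (l : List Entry) (g : Entry) (hs : Ok 1 s) (hl : ∀ u ∈ l, Ok 1 u)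
    (hg : Ok 2 g) : ∀ t ∈ stringsAux s (l ++ [g]), Adm t := by
  induction l generalizing s with
  | nil =>
    intro t ht
    simp only [List.nil_append, stringsAux, List.map_cons, List.map_nil, List.cons_append,
      List.mem_cons, List.not_mem_nil, or_false] at ht
    rcases ht with rfl | rfl
    · exact ⟨[s], g, rfl, hg, by simpa using hs⟩
    · exact ⟨[], oplus s g, rfl, (hs.oplus hg).mono (by omega), by simp⟩
  | cons h l ih =>
    intro t ht
    simp only [List.cons_append, stringsAux, List.mem_append, List.mem_map] at ht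
    have hh : Ok 1 h := hl h (by simp)
    have hl' : ∀ u ∈ l, Ok 1 u := fun u hu => hl u (by simp [hu])
    rcases ht with ⟨u, hu, rfl⟩ | ht
    · obtain ⟨t', g', rfl, hg', ht'⟩ := ih h hh hl' u hu
      refine ⟨s :: t', g', rfl, hg', ?_⟩
      intro v hv
      rw [List.mem_cons] at hv
      rcases hv with rfl | hv
      · exact hs
      · exact ht' v hv
    · exact ih (oplus s h) ((hs.oplus hh).mono (by omega)) hl' t ht

lemma tendsto_list_sum' {α : Type} (L : List α) (F : α → ℕ → ℝ) (x : α → ℝ)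
    (h : ∀ u ∈ L, Tendsto (F u) atTop (𝓝 (x u))) :
    Tendsto (fun N : ℕ => (L.map (fun u => F u N)).sum) atTop (𝓝 (L.map x).sum) := by
  induction L with
  | nil => simp only [List.map_nil, List.sum_nil]; exact tendsto_const_nhds
  | cons a L ih =>
    simp only [List.map_cons, List.sum_cons]
    exact (h a (by simp)).add (ih (fun u hu => h u (by simp [hu])))

lemma eulerSharp_tendsto (s : Entry) (l : List Entry) (g : Entry) (hs : Ok 1 s)
    (hl : ∀ u ∈ l, Ok 1 u) (hg : Ok 2 g) :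
    Tendsto (fun N : ℕ => sharpF (term s) ((l ++ [g]).map term) 0 N) atTop
      (𝓝 (eulerSharp (s :: (l ++ [g])))) := by
  have h1 := tendsto_list_sum' (stringsAux s (l ++ [g]))
    (fun t N => (2 : ℝ) ^ t.length * nested t 0 N) (fun t => (2 : ℝ) ^ t.length * eulerSum t)
    (fun t ht => (adm_strings s l g hs hl hg t ht).tendsto.const_mul _)
  refine h1.congr (fun N => ?_)
  exact strings_sum s (l ++ [g]) 0 N

lemma plain_ok (n : ℕ) : Ok n (plain n) := ⟨le_rfl, Or.inl rfl⟩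

lemma bar_ok (n : ℕ) : Ok n (bar n) := ⟨le_rfl, Or.inr rfl⟩

lemma term_plain (a n : ℕ) : term (plain a) n = 1 / (n : ℝ) ^ a := by
  simp [term, plain]

lemma term_bar (a n : ℕ) : term (bar a) n = (-1) ^ n / (n : ℝ) ^ a := by
  simp [term, bar]

lemma term_plain_one : term (plain 1) = inv := by
  funext n
  rw [term_plain, pow_one]
  rfl

lemma term_plain_two : term (plain 2) = inv2 := by
  funext n
  rw [term_plain]
  rfl

lemma inv_sm : Sm inv := by
  rw [← term_plain_one]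
  exact (plain_ok 1).sm

lemma inv2_sm : Sm inv2 := by
  rw [← term_plain_two]
  exact ((plain_ok 2).mono (by omega)).sm

/-- The left-hand side is the limit of an explicit series. -/
lemma lhs_tendsto (r : ℕ) :
    Tendsto (fun N : ℕ => ∑ M ∈ Finset.Ioc 0 N, (2 / (M : ℝ) ^ (r + 3)) * (H M - H (2 * M))) atTop
      (𝓝 (eulerSharp (plain 2 :: (List.replicate r (plain 1) ++ [bar 2])))) := by
  set l : List (ℕ → ℝ) := List.replicate r inv with hl
  have hlS : ∀ f ∈ l, Sm f := by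
    intro f hf
    rw [hl, List.mem_replicate] at hf
    rw [hf.2]
    exact inv_sm
  set g : ℕ → ℝ := term (bar 2) with hg
  have hg2 : ∀ b : ℕ, 1 ≤ b → |g b| ≤ 1 / (b : ℝ) ^ 2 := fun b hb => abs_term_le (bar_ok 2) b hb
  set Φ : ℕ → ℝ := fun b => Phi inv2 l 0 b with hΦ
  have hΦb : ∀ b : ℕ, 1 ≤ b → |Φ b| ≤ 4 ^ (l.length + 1) * (1 + H b) ^ (l.length + 1) :=
    fun b hb => Phi_bound inv2 l inv2_sm hlS 0 b hb
  have hsum := summable_aux g Φ hg2 _ _ hΦb
  have habs := hsum.abs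
  -- unweighted limit
  have h1 : Tendsto (fun N : ℕ => sharpF inv2 (l ++ [g]) 0 N) atTop
      (𝓝 (∑' b : ℕ, g (b + 1) * Φ (b + 1))) := by
    refine (hsum.hasSum.tendsto_sum_nat).congr (fun N => ?_)
    rw [sharpF_snoc, sum_Ioc_eq_range (fun b => g b * Phi inv2 l 0 b)]
  have h2 := eulerSharp_tendsto (plain 2) (List.replicate r (plain 1)) (bar 2)
    ((plain_ok 2).mono (by omega)) (by
      intro u hu
      rw [List.mem_replicate] at hu
      rw [hu.2]
      exact plain_ok 1) (bar_ok 2)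
  have hmap : (List.replicate r (plain 1) ++ [bar 2]).map term = l ++ [g] := by
    rw [List.map_append, List.map_replicate, term_plain_one]
    rfl
  rw [hmap, term_plain_two] at h2
  have h3 := tendsto_nhds_unique h1 h2
  rw [← h3]
  -- weighted limit
  have h4 : Tendsto (fun N : ℕ => ∑' b : ℕ, w N (b + 1) * (g (b + 1) * Φ (b + 1))) atTop
      (𝓝 (∑' b : ℕ, g (b + 1) * Φ (b + 1))) := by
    refine tendsto_tsum_of_dominated_convergence
      (bound := fun b : ℕ => |g (b + 1) * Φ (b + 1)|) habs ?_ ?_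
    · intro b
      have := (w_tendsto (b + 1)).mul_const (g (b + 1) * Φ (b + 1))
      rwa [one_mul] at this
    · refine Eventually.of_forall (fun N b => ?_)
      rw [Real.norm_eq_abs, abs_mul, abs_of_nonneg (w_nonneg N (b + 1))]
      exact mul_le_of_le_one_left (abs_nonneg _) (w_le_one N (b + 1))
  refine h4.congr (fun N => ?_)
  rw [← finite_identity, sharpF_snoc, sum_Ioc_eq_range (fun b => gw N b * Phi inv2 l 0 b)]
  rw [tsum_eq_sum (s := Finset.range N)]
  · apply Finset.sum_congr rfl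
    intro b _
    simp only [gw, hg, hΦ, term_bar]
    ring
  · intro b hb
    rw [Finset.mem_range, not_lt] at hb
    rw [w_eq_zero (by omega)]
    ring

/-! ### The right-hand side -/

lemma geom_pair (d i j e : ℕ) (hi : 1 ≤ i) (hij : i < j) (he : 2 * e ≤ d) :
    ∑ l ∈ Finset.Ioc 0 e, 1 / ((i : ℝ) ^ (d + 1 - 2 * l) * (j : ℝ) ^ (2 * l))
      = (1 / ((j : ℝ) ^ 2 - (i : ℝ) ^ 2)) * ((i : ℝ) ^ 2 / (i : ℝ) ^ (d + 1)
        - (i : ℝ) ^ 2 / ((i : ℝ) ^ (d + 1 - 2 * e) * (j : ℝ) ^ (2 * e))) := by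
  have hi0 : (0 : ℝ) < i := by exact_mod_cast hi
  have hj0 : (0 : ℝ) < j := by
    have : 0 < j := by omega
    exact_mod_cast this
  have hij' : (i : ℝ) < j := by exact_mod_cast hij
  have hne : (j : ℝ) ^ 2 - (i : ℝ) ^ 2 ≠ 0 := by nlinarith
  induction e with
  | zero => simp
  | succ e ih =>
    rw [Finset.sum_Ioc_succ_top (Nat.zero_le e), ih (by omega)]
    obtain ⟨q, hq⟩ : ∃ q : ℕ, d + 1 - 2 * e = q + 2 := ⟨d + 1 - 2 * e - 2, by omega⟩
    have hq' : d + 1 - 2 * (e + 1) = q := by omega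
    have he' : 2 * (e + 1) = 2 * e + 2 := by ring
    rw [hq, hq', he', pow_add, pow_add (j : ℝ)]
    field_simp
    ring

lemma sum_inv_sq_sub (i N : ℕ) (hi : 1 ≤ i) (hN : i ≤ N) :
    ∑ j ∈ Finset.Ioc i N, 1 / ((j : ℝ) ^ 2 - (i : ℝ) ^ 2)
      = (1 / (2 * (i : ℝ))) * (H (N - i) - H (N + i) + H (2 * i)) := by
  have hi0 : (0 : ℝ) < i := by exact_mod_cast hi
  induction N, hN using Nat.le_induction with
  | base =>
    simp only [Finset.Ioc_self, Finset.sum_empty, Nat.sub_self, H_zero]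
    rw [two_mul]
    ring_nf
  | succ N hN ih =>
    rw [Finset.sum_Ioc_succ_top (by omega), ih]
    have h1 : N + 1 - i = (N - i) + 1 := by omega
    have h2 : N + 1 + i = (N + i) + 1 := by omega
    rw [h1, h2, H_succ, H_succ]
    push_cast [Nat.cast_sub hN]
    have hNi : (i : ℝ) ≤ N := by exact_mod_cast hN
    have h3 : ((N : ℝ) - i + 1) ≠ 0 := by linarith
    have h4 : ((N : ℝ) + i + 1) ≠ 0 := by linarith
    have h5 : ((N : ℝ) + 1) ^ 2 - (i : ℝ) ^ 2 = ((N : ℝ) - i + 1) * ((N : ℝ) + i + 1) := by ring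
    rw [h5]
    field_simp
    ring

lemma sum_i_div (j K : ℕ) (hK : K < j) :
    ∑ i ∈ Finset.Ioc 0 K, (i : ℝ) / ((j : ℝ) ^ 2 - (i : ℝ) ^ 2)
      = (1 / 2) * (H (j - 1) - H (j - 1 - K) - H (j + K) + H j) := by
  induction K with
  | zero => simp
  | succ K ih =>
    rw [Finset.sum_Ioc_succ_top (Nat.zero_le K), ih (by omega)]
    obtain ⟨q, hq⟩ : ∃ q : ℕ, j = q + 1 + K + 1 := ⟨j - K - 2, by omega⟩
    have h1 : j - 1 - K = q + 1 := by omega
    have h2 : j - 1 - (K + 1) = q := by omega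
    have h3 : j + (K + 1) = (j + K) + 1 := by ring
    rw [h1, h2, h3, H_succ q, H_succ (j + K)]
    subst hq
    push_cast
    have h4 : ((q : ℝ) + 1 + K + 1) ^ 2 - ((K : ℝ) + 1) ^ 2
        = ((q : ℝ) + 1) * ((q : ℝ) + 1 + K + 1 + K + 1) := by ring
    rw [h4]
    have h5 : ((q : ℝ) + 1) ≠ 0 := by positivity
    have h6 : ((q : ℝ) + 1 + K + 1 + K + 1) ≠ 0 := by positivity
    field_simp
    ring

lemma sum_one_div (j K : ℕ) (hK : K < j) :
    ∑ i ∈ Finset.Ioc 0 K, 1 / ((j : ℝ) ^ 2 - (i : ℝ) ^ 2)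
      = (1 / (2 * (j : ℝ))) * (H (j - 1) - H (j - 1 - K) + H (j + K) - H j) := by
  induction K with
  | zero => simp
  | succ K ih =>
    rw [Finset.sum_Ioc_succ_top (Nat.zero_le K), ih (by omega)]
    obtain ⟨q, hq⟩ : ∃ q : ℕ, j = q + 1 + K + 1 := ⟨j - K - 2, by omega⟩
    have h1 : j - 1 - K = q + 1 := by omega
    have h2 : j - 1 - (K + 1) = q := by omega
    have h3 : j + (K + 1) = (j + K) + 1 := by ring
    rw [h1, h2, h3, H_succ q, H_succ (j + K)]
    subst hq
    push_cast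
    have h4 : ((q : ℝ) + 1 + K + 1) ^ 2 - ((K : ℝ) + 1) ^ 2
        = ((q : ℝ) + 1) * ((q : ℝ) + 1 + K + 1 + K + 1) := by ring
    rw [h4]
    have h5 : ((q : ℝ) + 1) ≠ 0 := by positivity
    have h6 : ((q : ℝ) + 1 + K + 1 + K + 1) ≠ 0 := by positivity
    have h7 : ((q : ℝ) + 1 + K + 1) ≠ 0 := by positivity
    field_simp
    ring

/-- The error term. -/
noncomputable def Err (d N : ℕ) : ℝ :=
  ∑ i ∈ Finset.Ioc 0 N, (1 / (i : ℝ) ^ d) * (H (N + i) - H (N - i))

/-- Truncations of the double sum on the right-hand side, with `e = ⌊d/2⌋`. -/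
lemma double_eq (d e N : ℕ) (he : 2 * e ≤ d) :
    ∑ l ∈ Finset.Ioc 0 e, nested [plain (d + 1 - 2 * l), plain (2 * l)] 0 N
      = ∑ i ∈ Finset.Ioc 0 N, (1 / (2 * (i : ℝ) ^ d)) * (H (N - i) - H (N + i) + H (2 * i))
        - ∑ j ∈ Finset.Ioc 0 N, ∑ i ∈ Finset.Ioc 0 (j - 1),
          (1 / ((j : ℝ) ^ 2 - (i : ℝ) ^ 2)) *
            ((i : ℝ) ^ 2 / ((i : ℝ) ^ (d + 1 - 2 * e) * (j : ℝ) ^ (2 * e))) := by
  have h1 : ∀ l ∈ Finset.Ioc 0 e, nested [plain (d + 1 - 2 * l), plain (2 * l)] 0 N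
      = ∑ i ∈ Finset.Ioc 0 N, ∑ j ∈ Finset.Ioc i N,
        1 / ((i : ℝ) ^ (d + 1 - 2 * l) * (j : ℝ) ^ (2 * l)) := by
    intro l _
    simp only [nested, term_plain, mul_one]
    apply Finset.sum_congr rfl
    intro i _
    rw [Finset.mul_sum]
    apply Finset.sum_congr rfl
    intro j _
    rw [one_div_mul_one_div]
  rw [Finset.sum_congr rfl h1, Finset.sum_comm]
  rw [← sum_Ioc_swap 0 N (fun i j => (1 / ((j : ℝ) ^ 2 - (i : ℝ) ^ 2)) *
            ((i : ℝ) ^ 2 / ((i : ℝ) ^ (d + 1 - 2 * e) * (j : ℝ) ^ (2 * e)))),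
    ← Finset.sum_sub_distrib]
  apply Finset.sum_congr rfl
  intro i hi
  rw [Finset.mem_Ioc] at hi
  have hi0 : (i : ℝ) ≠ 0 := by
    have : i ≠ 0 := by omega
    exact_mod_cast this
  have h2 : (1 / (2 * (i : ℝ) ^ d)) * (H (N - i) - H (N + i) + H (2 * i))
      = ∑ j ∈ Finset.Ioc i N, (1 / ((j : ℝ) ^ 2 - (i : ℝ) ^ 2)) * ((i : ℝ) ^ 2 / (i : ℝ) ^ (d + 1)) := by
    rw [← Finset.sum_mul, sum_inv_sq_sub i N (by omega) hi.2, pow_succ]
    field_simp
    ring
  rw [h2, ← Finset.sum_sub_distrib, Finset.sum_comm]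
  apply Finset.sum_congr rfl
  intro j hj
  rw [Finset.mem_Ioc] at hj
  rw [geom_pair d i j e (by omega) hj.1 he]
  ring

/-- The truncated right-hand side. -/
noncomputable def rhsN (d N : ℕ) : ℝ :=
  (1 / 2) * nested [plain (d + 1)] 0 N
    - 2 * ∑ l ∈ Finset.Ioc 0 (d / 2), nested [plain (d + 1 - 2 * l), plain (2 * l)] 0 N

lemma rhsN_even (e N : ℕ) :
    rhsN (2 * e) N
      = ∑ M ∈ Finset.Ioc 0 N, (2 / (M : ℝ) ^ (2 * e)) * (H M - H (2 * M)) + Err (2 * e) N := by
  have hde : 2 * e / 2 = e := by omega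
  unfold rhsN Err
  rw [hde, double_eq (2 * e) e N le_rfl]
  have h1 : nested [plain (2 * e + 1)] 0 N = ∑ i ∈ Finset.Ioc 0 N, 1 / (i : ℝ) ^ (2 * e + 1) := by
    simp [nested, term_plain]
  rw [h1, Finset.mul_sum, mul_sub, Finset.mul_sum, Finset.mul_sum, ← Finset.sum_add_distrib,
    ← Finset.sum_sub_distrib, ← Finset.sum_sub_distrib]
  apply Finset.sum_congr rfl
  intro j hj
  rw [Finset.mem_Ioc] at hj
  have hj0 : (j : ℝ) ≠ 0 := by
    have : j ≠ 0 := by omega
    exact_mod_cast this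
  have hq : 2 * e + 1 - 2 * e = 1 := by omega
  have h2 : ∑ i ∈ Finset.Ioc 0 (j - 1), (1 / ((j : ℝ) ^ 2 - (i : ℝ) ^ 2)) *
            ((i : ℝ) ^ 2 / ((i : ℝ) ^ (2 * e + 1 - 2 * e) * (j : ℝ) ^ (2 * e)))
      = (1 / (j : ℝ) ^ (2 * e)) * ((1 / 2) * (H (j - 1) - H (j - 1 - (j - 1)) - H (j + (j - 1)) + H j)) := by
    rw [← sum_i_div j (j - 1) (by omega), Finset.mul_sum]
    apply Finset.sum_congr rfl
    intro i hi
    rw [Finset.mem_Ioc] at hi
    have hi0 : (i : ℝ) ≠ 0 := by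
      have : i ≠ 0 := by omega
      exact_mod_cast this
    have hij : (i : ℝ) < j := by
      have : i < j := by omega
      exact_mod_cast this
    have hi1 : (0 : ℝ) < i := by
      have : 0 < i := by omega
      exact_mod_cast this
    have hne : (j : ℝ) ^ 2 - (i : ℝ) ^ 2 ≠ 0 := by nlinarith
    rw [hq, pow_one]
    field_simp
  rw [h2]
  obtain ⟨q, rfl⟩ : ∃ q : ℕ, j = q + 1 := ⟨j - 1, by omega⟩
  have h3 : q + 1 - 1 = q := by omega
  have h4 : q - q = 0 := by omega
  have h5 : q + 1 + q = 2 * q + 1 := by ring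
  have h6 : 2 * (q + 1) = 2 * q + 1 + 1 := by ring
  rw [h3, h4, h5, h6, H_zero, H_succ q, H_succ (2 * q + 1), pow_succ]
  push_cast
  have h7 : ((q : ℝ) + 1) ≠ 0 := by positivity
  have h8 : (2 * (q : ℝ) + 1 + 1) ≠ 0 := by positivity
  field_simp
  ring

lemma rhsN_odd (e N : ℕ) :
    rhsN (2 * e + 1) N
      = - (∑ M ∈ Finset.Ioc 0 N, 1 / (M : ℝ) ^ (2 * e + 2)) + Err (2 * e + 1) N := by
  have hde : (2 * e + 1) / 2 = e := by omega
  unfold rhsN Err
  rw [hde, double_eq (2 * e + 1) e N (by omega)]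
  have h1 : nested [plain (2 * e + 1 + 1)] 0 N
      = ∑ i ∈ Finset.Ioc 0 N, 1 / (i : ℝ) ^ (2 * e + 2) := by
    simp [nested, term_plain]
  rw [h1, Finset.mul_sum, mul_sub, Finset.mul_sum, Finset.mul_sum, ← Finset.sum_neg_distrib,
    ← Finset.sum_add_distrib, ← Finset.sum_sub_distrib, ← Finset.sum_sub_distrib]
  apply Finset.sum_congr rfl
  intro j hj
  rw [Finset.mem_Ioc] at hj
  have hj0 : (j : ℝ) ≠ 0 := by
    have : j ≠ 0 := by omega
    exact_mod_cast this
  have hq : 2 * e + 1 + 1 - 2 * e = 2 := by omega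
  have h2 : ∑ i ∈ Finset.Ioc 0 (j - 1), (1 / ((j : ℝ) ^ 2 - (i : ℝ) ^ 2)) *
            ((i : ℝ) ^ 2 / ((i : ℝ) ^ (2 * e + 1 + 1 - 2 * e) * (j : ℝ) ^ (2 * e)))
      = (1 / (j : ℝ) ^ (2 * e)) *
        ((1 / (2 * (j : ℝ))) * (H (j - 1) - H (j - 1 - (j - 1)) + H (j + (j - 1)) - H j)) := by
    rw [← sum_one_div j (j - 1) (by omega), Finset.mul_sum]
    apply Finset.sum_congr rfl
    intro i hi
    rw [Finset.mem_Ioc] at hi
    have hi0 : (i : ℝ) ≠ 0 := by
      have : i ≠ 0 := by omega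
      exact_mod_cast this
    have hij : (i : ℝ) < j := by
      have : i < j := by omega
      exact_mod_cast this
    have hi1 : (0 : ℝ) < i := by
      have : 0 < i := by omega
      exact_mod_cast this
    have hne : (j : ℝ) ^ 2 - (i : ℝ) ^ 2 ≠ 0 := by nlinarith
    rw [hq]
    field_simp
  rw [h2]
  obtain ⟨q, rfl⟩ : ∃ q : ℕ, j = q + 1 := ⟨j - 1, by omega⟩
  have h3 : q + 1 - 1 = q := by omega
  have h4 : q - q = 0 := by omega
  have h5 : q + 1 + q = 2 * q + 1 := by ring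
  have h6 : 2 * (q + 1) = 2 * q + 1 + 1 := by ring
  rw [h3, h4, h5, h6, H_zero, H_succ q, H_succ (2 * q + 1)]
  push_cast
  have h7 : ((q : ℝ) + 1) ≠ 0 := by positivity
  have h8 : (2 * (q : ℝ) + 1 + 1) ≠ 0 := by positivity
  have h9 : ((q : ℝ) + 1) ^ (2 * e + 2) = ((q : ℝ) + 1) ^ (2 * e) * ((q : ℝ) + 1) ^ 2 := pow_add _ _ _
  rw [h9, pow_succ]
  field_simp
  ring

lemma H_diff_tendsto (i : ℕ) : Tendsto (fun N : ℕ => H (N + i) - H (N - i)) atTop (𝓝 0) := by
  induction i with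
  | zero => simp
  | succ i ih =>
    have h1 : Tendsto (fun N : ℕ => 1 / ((N : ℝ) + (i + 1))) atTop (𝓝 0) :=
      Tendsto.div_atTop tendsto_const_nhds
        (tendsto_atTop_add_const_right _ _ tendsto_natCast_atTop_atTop)
    have h2 : Tendsto (fun N : ℕ => 1 / ((N : ℝ) + (-(i : ℝ)))) atTop (𝓝 0) :=
      Tendsto.div_atTop tendsto_const_nhds
        (tendsto_atTop_add_const_right _ _ tendsto_natCast_atTop_atTop)
    have h3 := (ih.add h1).add h2
    rw [add_zero, add_zero] at h3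
    refine h3.congr' ?_
    filter_upwards [eventually_ge_atTop (i + 1)] with N hN
    have h4 : N + (i + 1) = (N + i) + 1 := by ring
    have h5 : N - i = (N - (i + 1)) + 1 := by omega
    rw [h4, H_succ, h5, H_succ]
    push_cast [Nat.cast_sub hN]
    ring

lemma H_two_mul_le (i : ℕ) : H (2 * i) ≤ 1 + H i := by
  have h : ∀ K : ℕ, H (i + K) ≤ H i + (K : ℝ) / (i + 1) := by
    intro K
    induction K with
    | zero => simp
    | succ K ih =>
      rw [← add_assoc, H_succ]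
      push_cast
      have h1 : 1 / ((i : ℝ) + K + 1) ≤ 1 / ((i : ℝ) + 1) := by
        apply one_div_le_one_div_of_le (by positivity)
        have : (0 : ℝ) ≤ K := Nat.cast_nonneg K
        linarith
      have h2 : ((K : ℝ) + 1) / (i + 1) = (K : ℝ) / (i + 1) + 1 / ((i : ℝ) + 1) := add_div _ _ _
      rw [h2]
      linarith
  have h1 := h i
  rw [← two_mul] at h1
  have h2 : (i : ℝ) / (i + 1) ≤ 1 := by
    rw [div_le_one (by positivity)]
    linarith
  linarith

lemma Err_tendsto (d : ℕ) (hd : 2 ≤ d) : Tendsto (fun N : ℕ => Err d N) atTop (𝓝 0) := by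
  have hsum : Summable (fun i : ℕ => (1 + H (i + 1)) ^ 1 / ((i + 1 : ℕ) : ℝ) ^ 2) :=
    (summable_nat_add_iff 1).mpr (summable_pow_H 1)
  set F : ℕ → ℕ → ℝ := fun N i => if i + 1 ≤ N then
      (1 / ((i + 1 : ℕ) : ℝ) ^ d) * (H (N + (i + 1)) - H (N - (i + 1))) else 0 with hF
  have h0 : Tendsto (fun N : ℕ => ∑' i : ℕ, F N i) atTop (𝓝 (∑' i : ℕ, (fun _ : ℕ => (0 : ℝ)) i)) := by
    refine tendsto_tsum_of_dominated_convergence hsum ?_ ?_
    · intro i
      have h1 := (H_diff_tendsto (i + 1)).const_mul (1 / ((i + 1 : ℕ) : ℝ) ^ d)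
      rw [mul_zero] at h1
      refine h1.congr' ?_
      filter_upwards [eventually_ge_atTop (i + 1)] with N hN
      simp only [hF]
      rw [if_pos hN]
    · refine Eventually.of_forall (fun N i => ?_)
      rw [Real.norm_eq_abs]
      simp only [hF]
      split_ifs with h
      · have h1 : 0 ≤ H (N + (i + 1)) - H (N - (i + 1)) := by
          have := H_mono (show N - (i + 1) ≤ N + (i + 1) by omega)
          linarith
        have h2 : H (N + (i + 1)) - H (N - (i + 1)) ≤ H (2 * (i + 1)) := by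
          have h3 := sum_inv_sq_sub (i + 1) N (by omega) h
          have h4 : 0 ≤ ∑ j ∈ Finset.Ioc (i + 1) N,
              1 / ((j : ℝ) ^ 2 - ((i + 1 : ℕ) : ℝ) ^ 2) := by
            apply Finset.sum_nonneg
            intro j hj
            rw [Finset.mem_Ioc] at hj
            have h5 : ((i + 1 : ℕ) : ℝ) < j := by exact_mod_cast hj.1
            have h6 : (0 : ℝ) ≤ ((i + 1 : ℕ) : ℝ) := Nat.cast_nonneg _
            apply div_nonneg zero_le_one
            nlinarith
          rw [h3] at h4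
          have h7 : (0 : ℝ) < 1 / (2 * ((i + 1 : ℕ) : ℝ)) := by positivity
          have h8 := nonneg_of_mul_nonneg_right h4 h7
          linarith
        have h3 := H_two_mul_le (i + 1)
        rw [abs_of_nonneg (by positivity), pow_one, div_mul_eq_mul_div, one_mul]
        have h9 : (1 : ℝ) ≤ ((i + 1 : ℕ) : ℝ) := by
          have : 1 ≤ i + 1 := by omega
          exact_mod_cast this
        have h10 := H_nonneg (i + 1)
        apply div_le_div₀ (by linarith) (by linarith) (by positivity)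
        exact pow_le_pow_right₀ h9 hd
      · rw [abs_zero]
        have := H_nonneg (i + 1)
        positivity
  rw [tsum_zero] at h0
  refine h0.congr (fun N => ?_)
  unfold Err
  rw [sum_Ioc_eq_range (fun i => (1 / (i : ℝ) ^ d) * (H (N + i) - H (N - i))),
    tsum_eq_sum (s := Finset.range N)]
  · apply Finset.sum_congr rfl
    intro i hi
    rw [Finset.mem_range] at hi
    simp only [hF]
    rw [if_pos (by omega)]
  · intro i hi
    rw [Finset.mem_range, not_lt] at hi
    simp only [hF]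
    rw [if_neg (by omega)]

/-- The right-hand side of the proposed identity. -/
lemma rhsN_tendsto (d : ℕ) (hd : 3 ≤ d) :
    Tendsto (fun N : ℕ => rhsN d N) atTop
      (𝓝 ((1 / 2) * eulerSum [plain (d + 1)]
        - 2 * ∑ p ∈ (Finset.HasAntidiagonal.antidiagonal (d + 1)).filter
            (fun p : ℕ × ℕ => 1 ≤ p.1 ∧ 2 ≤ p.2 ∧ Even p.2),
          eulerSum [plain p.1, plain p.2])) := by
  have h1 : Tendsto (fun N : ℕ => nested [plain (d + 1)] 0 N) atTop
      (𝓝 (eulerSum [plain (d + 1)])) := by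
    apply Adm.tendsto
    exact ⟨[], plain (d + 1), rfl, (plain_ok _).mono (by omega), by simp⟩
  have h2 : ∀ l ∈ Finset.Ioc 0 (d / 2),
      Tendsto (fun N : ℕ => nested [plain (d + 1 - 2 * l), plain (2 * l)] 0 N) atTop
      (𝓝 (eulerSum [plain (d + 1 - 2 * l), plain (2 * l)])) := by
    intro l hl
    rw [Finset.mem_Ioc] at hl
    apply Adm.tendsto
    refine ⟨[plain (d + 1 - 2 * l)], plain (2 * l), rfl, (plain_ok _).mono (by omega), ?_⟩
    intro u hu
    rw [List.mem_singleton] at hu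
    rw [hu]
    exact (plain_ok _).mono (by omega)
  have h3 := tendsto_finsetSum (Finset.Ioc 0 (d / 2)) h2
  have h4 : ∑ p ∈ (Finset.HasAntidiagonal.antidiagonal (d + 1)).filter
            (fun p : ℕ × ℕ => 1 ≤ p.1 ∧ 2 ≤ p.2 ∧ Even p.2),
          eulerSum [plain p.1, plain p.2]
      = ∑ l ∈ Finset.Ioc 0 (d / 2), eulerSum [plain (d + 1 - 2 * l), plain (2 * l)] := by
    refine Finset.sum_nbij' (fun p => p.2 / 2) (fun l => (d + 1 - 2 * l, 2 * l)) ?_ ?_ ?_ ?_ ?_
    · rintro ⟨a, b⟩ hp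
      simp only [Finset.mem_filter, Finset.HasAntidiagonal.mem_antidiagonal, Finset.mem_Ioc] at hp ⊢
      omega
    · intro l hl
      simp only [Finset.mem_filter, Finset.HasAntidiagonal.mem_antidiagonal, Finset.mem_Ioc] at hl ⊢
      refine ⟨by omega, by omega, by omega, even_two_mul l⟩
    · rintro ⟨a, b⟩ hp
      simp only [Finset.mem_filter, Finset.HasAntidiagonal.mem_antidiagonal] at hp ⊢
      obtain ⟨h5, h6, h7, h8⟩ := hp
      have h9 : 2 * (b / 2) = b := Nat.two_mul_div_two_of_even h8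
      rw [h9, Prod.mk.injEq]
      omega
    · intro l hl
      simp only
      omega
    · rintro ⟨a, b⟩ hp
      simp only [Finset.mem_filter, Finset.HasAntidiagonal.mem_antidiagonal] at hp ⊢
      obtain ⟨h5, h6, h7, h8⟩ := hp
      have h9 : 2 * (b / 2) = b := Nat.two_mul_div_two_of_even h8
      have h10 : d + 1 - b = a := by omega
      rw [h9, h10]
  rw [h4]
  exact (h1.const_mul _).sub (h3.const_mul _)

lemma H_diff_ge (M : ℕ) (hM : 1 ≤ M) : 1 / 2 ≤ H (2 * M) - H M := by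
  induction M, hM using Nat.le_induction with
  | base =>
    have h1 : H (2 * 1) = 3 / 2 := by
      rw [show 2 * 1 = 0 + 1 + 1 from rfl, H_succ, H_succ, H_zero]
      norm_num
    have h2 : H 1 = 1 := by
      rw [show 1 = 0 + 1 from rfl, H_succ, H_zero]
      norm_num
    rw [h1, h2]
    norm_num
  | succ M hM ih =>
    have h1 : 2 * (M + 1) = 2 * M + 1 + 1 := by ring
    rw [h1, H_succ, H_succ, H_succ M]
    push_cast
    have h2 : 1 / (2 * (M : ℝ) + 1 + 1) + 1 / (2 * (M : ℝ) + 1 + 1) = 1 / ((M : ℝ) + 1) := by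
      field_simp
      ring
    have h3 : 1 / (2 * (M : ℝ) + 1 + 1) ≤ 1 / (2 * (M : ℝ) + 1) := by
      apply one_div_le_one_div_of_le (by positivity)
      linarith
    linarith

/-- For odd `d` the truncations stay apart. -/
lemma odd_gap (d N : ℕ) (hN : 2 ≤ N) :
    ∑ M ∈ Finset.Ioc 0 N, (2 / (M : ℝ) ^ d) * (H M - H (2 * M))
      + ∑ M ∈ Finset.Ioc 0 N, 1 / (M : ℝ) ^ (d + 1) ≤ - (1 / 2) / (2 : ℝ) ^ d := by
  rw [← Finset.sum_add_distrib]
  have hterm : ∀ M ∈ Finset.Ioc 0 N,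
      (2 / (M : ℝ) ^ d) * (H M - H (2 * M)) + 1 / (M : ℝ) ^ (d + 1)
        ≤ if M = 2 then - (1 / 2) / (2 : ℝ) ^ d else 0 := by
    intro M hM
    rw [Finset.mem_Ioc] at hM
    have hM0 : (0 : ℝ) < M := by exact_mod_cast hM.1
    have hM1 : (1 : ℝ) ≤ M := by exact_mod_cast hM.1
    have h1 := H_diff_ge M hM.1
    have h2 : (2 / (M : ℝ) ^ d) * (H M - H (2 * M)) + 1 / (M : ℝ) ^ (d + 1)
        ≤ (-1 + 1 / (M : ℝ)) / (M : ℝ) ^ d := by
      have h3 : 1 / (M : ℝ) ^ (d + 1) = (1 / (M : ℝ)) / (M : ℝ) ^ d := by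
        rw [pow_succ]
        field_simp
      rw [h3, div_mul_eq_mul_div, ← add_div]
      apply div_le_div_of_nonneg_right _ (by positivity)
      linarith
    split_ifs with h
    · subst h
      refine h2.trans (le_of_eq ?_)
      push_cast
      norm_num
    · refine h2.trans ?_
      apply div_nonpos_of_nonpos_of_nonneg _ (by positivity)
      have : 1 / (M : ℝ) ≤ 1 := by
        rw [div_le_one hM0]
        exact hM1
      linarith
  refine (Finset.sum_le_sum hterm).trans (le_of_eq ?_)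
  rw [Finset.sum_ite_eq' (Finset.Ioc 0 N) 2]
  rw [if_pos (by rw [Finset.mem_Ioc]; omega)]

/-- **Main result.** For `d ≥ 3`, the identity
`ζ♯(2, 1_{d-3}, bar 2) = (1/2) ζ(d+1) - 2 ∑ ζ(m,n)` (sum over `m + n = d + 1`, `m ≥ 1`, `n ≥ 2`,
`n` even) holds if and only if `d` is even. -/
theorem result (d : ℕ) (hd : 3 ≤ d) :
    (eulerSharp (plain 2 :: (List.replicate (d - 3) (plain 1) ++ [bar 2]))
      = (1 / 2) * eulerSum [plain (d + 1)]
        - 2 * ∑ p ∈ (Finset.HasAntidiagonal.antidiagonal (d + 1)).filter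
            (fun p : ℕ × ℕ => 1 ≤ p.1 ∧ 2 ≤ p.2 ∧ Even p.2),
          eulerSum [plain p.1, plain p.2]) ↔ Even d := by
  have hL := lhs_tendsto (d - 3)
  have hR := rhsN_tendsto d hd
  have hE := Err_tendsto d (by omega)
  have hd3 : d - 3 + 3 = d := by omega
  rw [hd3] at hL
  set L := eulerSharp (plain 2 :: (List.replicate (d - 3) (plain 1) ++ [bar 2])) with hLdef
  set R := (1 / 2) * eulerSum [plain (d + 1)]
        - 2 * ∑ p ∈ (Finset.HasAntidiagonal.antidiagonal (d + 1)).filter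
            (fun p : ℕ × ℕ => 1 ≤ p.1 ∧ 2 ≤ p.2 ∧ Even p.2),
          eulerSum [plain p.1, plain p.2] with hRdef
  constructor
  · intro heq
    by_contra hodd
    rw [Nat.not_even_iff_odd] at hodd
    obtain ⟨e, he⟩ := hodd
    have h1 : Tendsto (fun N : ℕ => ∑ M ∈ Finset.Ioc 0 N, (2 / (M : ℝ) ^ d) * (H M - H (2 * M))
        - rhsN d N + Err d N) atTop (𝓝 (L - R + 0)) := (hL.sub hR).add hE
    have h2 : L - R + 0 ≤ - (1 / 2) / (2 : ℝ) ^ d := by
      refine le_of_tendsto h1 ?_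
      filter_upwards [eventually_ge_atTop 2] with N hN
      have h3 := odd_gap d N hN
      have h4 : rhsN d N = - (∑ M ∈ Finset.Ioc 0 N, 1 / (M : ℝ) ^ (d + 1)) + Err d N := by
        subst he
        exact rhsN_odd e N
      rw [h4]
      linarith
    rw [heq] at h2
    have h5 : (0 : ℝ) < (1 / 2) / (2 : ℝ) ^ d := by positivity
    have h6 : - (1 / 2) / (2 : ℝ) ^ d = - ((1 / 2) / (2 : ℝ) ^ d) := neg_div _ _
    rw [h6] at h2
    linarith
  · intro heven
    obtain ⟨e, he⟩ := heven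
    have he2 : d = 2 * e := by omega
    have h1 : Tendsto (fun N : ℕ => rhsN d N) atTop (𝓝 (L + 0)) := by
      refine (hL.add hE).congr (fun N => ?_)
      rw [he2]
      exact (rhsN_even e N).symm
    rw [add_zero] at h1
    exact tendsto_nhds_unique h1 hR

end Pool.Agent.Results.MP_27090e_nt.SharpIffEven
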